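import Pool.Agent.W942.AlgCor

/-!
# The permanent as a sum of algebraic functions of determinants

`RowLineDet R p` (file `Pool/Agent/W942/FinalR.lean`): `p` is the determinant of a square matrix of
polynomials, of any order, at most `R` lines of which are not constant, where the entries of every
line involve the variables of a single row of the `n × n` matrix `X` of variables only (entries are
otherwise arbitrary polynomials; many lines may read the same row, in any order).

`AlgFunction L R z` (file `Pool/Agent/W942/AlgFin.lean`): the element `z` of the field `K(X)` of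
rational functions is separable algebraic over the subfield generated over `K` by polynomials
`q_1, …, q_t`, for some `t`, where `q_j` is a determinant with at most `l_j` lines in this sense,
`l_j ≤ L` and `l_1 + … + l_t ≤ R`. All elements of that subfield are included, and in characteristic
zero all elements of `K(X)` which are algebraic over it (`AlgOver`).

`perF K n` and `detF K n` (file `Pool/Agent/W942/AlgCor.lean`) are the permanent and the determinant
of `X` as elements of `K(X)`.
-/

set_option autoImplicit false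

namespace Pool.Agent.Results.MP_35c45d_lc.AlgebraicOverDeterminants

open MvPolynomial Pool.Agent.W942.Alg Pool.Agent.W942.Ext

universe u

/-- Let `K` be a field of characteristic different from two. If the `n × n` permanent is the sum of
`s` elements `z_i` of `K(X)` with `AlgFunction (L i) (R i) (z i)`, then for even `D` with `D k ≤ n`
one has `D ^ k * (n + 1 - 2 k) ^ (2 k) ≤ ∑ (k (k + 1) * 2 R_i * max (n, 2 L_i)) ^ k`, and hence
`s ≥ 2 ^ k` if `L_i ≤ L₀`, `R_i ≤ R₀` and `64 k ^ 3 * R₀ * max (n, 2 L₀) ≤ n ^ 3`. If the permanent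
itself is such an element, then `n (n - 1) ^ 2 ≤ 4 R * max (n, 2 L)`. In contrast the determinant is
such an element for `L = R = n`, and every element of `K(X)` is one for `L = 1`, `R = n ^ 2`. -/
theorem result :
    (∀ {K : Type u} [Field K], (2 : K) ≠ 0 → ∀ (n s : ℕ), 0 < n →
      ∀ (z : Fin s → FractionRing (MvPolynomial (Fin n × Fin n) K)) (L R : Fin s → ℕ),
      (∀ i, AlgFunction (L i) (R i) (z i)) → ∑ i, z i = perF K n →
      (∀ D k : ℕ, Even D → D * k ≤ n → D ^ k * (n + 1 - 2 * k) ^ (2 * k) ≤
        ∑ i, (k * (k + 1) * (2 * R i * max n (2 * L i))) ^ k) ∧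
      (∀ k L0 R0 : ℕ, (∀ i, L i ≤ L0) → (∀ i, R i ≤ R0) → 0 < R0 →
        64 * k ^ 3 * R0 * max n (2 * L0) ≤ n ^ 3 → 2 ^ k ≤ s)) ∧
    (∀ {K : Type u} [Field K], (2 : K) ≠ 0 → ∀ (n L R : ℕ), AlgFunction L R (perF K n) →
      n * (n - 1) ^ 2 ≤ 4 * R * max n (2 * L)) ∧
    (∀ {K : Type u} [Field K] [CharZero K] (n L R t : ℕ)
      (q : Fin t → MvPolynomial (Fin n × Fin n) K) (l : Fin t → ℕ),
      (∀ j, RowLineDet (l j) (q j)) → (∀ j, l j ≤ L) → ∑ j, l j ≤ R →
      ∀ z, AlgOver q z → AlgFunction L R z) ∧
    (∀ {K : Type u} [Field K] (n : ℕ), AlgFunction n n (detF K n) ∧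
      ∀ z : FractionRing (MvPolynomial (Fin n × Fin n) K), AlgFunction 1 (n ^ 2) z) := by
  refine ⟨?_, fun hF n L R h => alg_one hF h, fun n L R t q l hq hL hR z hz =>
    algFunction_of_isAlgebraic q l hq hL hR z hz, fun n => ⟨algFunction_det, algFunction_all⟩⟩
  intro K _ hF n s hn z L R hz hsum
  have hmain := alg_main hF z L R hz hsum
  refine ⟨fun D k hD hk => ?_, fun k L0 R0 hL0 hR0 hR h64 => ?_⟩
  · exact (Nat.mul_le_mul_left _ (Nat.pow_sub_le_descFactorial n (2 * k))).trans (hmain D k hD hk)
  · refine final_arithC hn (le_max_left n (2 * L0)) hR h64 fun D k hD hk =>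
      (hmain D k hD hk).trans ?_
    calc ∑ i, (k * (k + 1) * (2 * R i * max n (2 * L i))) ^ k
        ≤ ∑ _i : Fin s, (k * (k + 1) * (2 * R0 * max n (2 * L0))) ^ k := by
          refine Finset.sum_le_sum fun i _ => Nat.pow_le_pow_left ?_ _
          exact Nat.mul_le_mul_left _ (Nat.mul_le_mul
            (Nat.mul_le_mul_left 2 (hR0 i)) (max_le_max le_rfl (Nat.mul_le_mul_left 2 (hL0 i))))
      _ = s * (k * (k + 1) * (2 * R0 * max n (2 * L0))) ^ k := by simp

end Pool.Agent.Results.MP_35c45d_lc.AlgebraicOverDeterminants
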