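import Mathlib
import Pool.Agent.W943.Few.F10

/-!
# A cubic lower bound for arbitrary functions of few outputs of a branching program
-/

set_option autoImplicit false

open MvPolynomial

namespace Pool.Agent.Results.MP_35c45d_lc.FewCoordinates

universe u

/-- Let `K` be a field of characteristic zero, `δ ≥ 1` and `m ≥ 210000 δ`. Let `A` be an invertible
`N × N` matrix and `b` a vector of polynomials of degree at most `δ` in the `m ^ 2` entries of the
generic `m × m` matrix, and let `x` be the solution of the linear system `A x = b` over the field of
rational functions (for example: the vector of the polynomials computed at the `N` nodes of a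
branching program with several outputs whose edges carry polynomials of degree at most `δ`; or
`N = N_1 + ⋯ + N_s` and the coordinates are entries of the inverses of matrices of sizes
`N_1, …, N_s`). Suppose that the permanent is algebraic over the field generated over `K` by the
coordinates `x_l`, `l ∈ T`, where `5440 |T| ≤ m ^ 2` (for example: an arbitrary rational function of
these coordinates, or a root of a polynomial whose coefficients are such functions). Then
`m ^ 3 ≤ 57120000 δ N`. -/
theorem result (K : Type u) [Field K] [CharZero K] (m N δ : ℕ) (hδ : 1 ≤ δ)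
    (hm : 210000 * δ ≤ m)
    (A : Matrix (Fin N) (Fin N) (MvPolynomial (Fin m × Fin m) K))
    (b : Fin N → MvPolynomial (Fin m × Fin m) K)
    (hA : ∀ i j, (A i j).totalDegree ≤ δ) (hb : ∀ i, (b i).totalDegree ≤ δ)
    (hdet : A.det ≠ 0)
    (x : Fin N → FractionRing (MvPolynomial (Fin m × Fin m) K))
    (hx : (A.map (algebraMap (MvPolynomial (Fin m × Fin m) K)
        (FractionRing (MvPolynomial (Fin m × Fin m) K)))).mulVec x =
      fun i => algebraMap (MvPolynomial (Fin m × Fin m) K)
        (FractionRing (MvPolynomial (Fin m × Fin m) K)) (b i))
    (T : Finset (Fin N)) (hT : 5440 * T.card ≤ m ^ 2)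
    (hper : IsAlgebraic (IntermediateField.adjoin K (x '' (T : Set (Fin N))))
      (algebraMap (MvPolynomial (Fin m × Fin m) K)
        (FractionRing (MvPolynomial (Fin m × Fin m) K))
        (Matrix.of fun i j : Fin m => (X (i, j) : MvPolynomial (Fin m × Fin m) K)).permanent)) :
    m ^ 3 ≤ 57120000 * (δ * N) := by
  obtain ⟨p₀, hp₀, pj, hrel⟩ := Pool.Agent.W943.Few.exists_mult A b x (fun i => congrFun hx i) T
    (Pool.Agent.H546R2.SL.perN K m) hper
  exact Pool.Agent.W943.Few.perm_core K m N δ hδ hm A b hA hb hdet T hT p₀ hp₀ pj hrel

end Pool.Agent.Results.MP_35c45d_lc.FewCoordinates
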