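import Mathlib
import Pool.Agent.W941.MG.Final
import Pool.Agent.W941.MG.Up

/-!
Permanent versus determinant for message passing programs.

A message passing program of arity `k` has registers at every row of the `n × n` matrix; one step
fills a register of every row `i` by the sum over all `k`-tuples of rows of an arbitrary polynomial
in the entries and the registers of `i` and of these rows, or by the product over all rows `i'` of
an arbitrary polynomial in the entries and the registers of `i` and `i'`. The permanent needs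
exponentially many steps (and `2 ^ (n - 1)` suffice), the square of the determinant only
`n (n + 1) / 2`.
-/

namespace Pool.Agent.Results.MP_35c45d_lc.MessagePassing

open MvPolynomial Pool.Agent.W941.MG

theorem result (k : ℕ) (hk : 1 ≤ k) :
    (∀ δ : ℝ, 0 < δ → ∃ n₀ : ℕ, ∀ n ≥ n₀,
      ∀ (l : List (Fin n → MvPolynomial (Fin n × Fin n) ℂ)) (P : MvPolynomial ℕ ℂ) (i : Fin n),
        Prog n k l → perm n = aeval (fun t => l.getD t 0 i) P →
        (2 : ℝ) ^ (-δ * n) * (k + 1 : ℝ) ^ ((n : ℝ) / (2 * (k + 2))) ≤ (l.length : ℝ)) ∧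
    (∀ n : ℕ, 1 ≤ n →
      (∃ l : List (Fin n → MvPolynomial (Fin n × Fin n) ℂ), Prog n k l ∧
        l.length = 2 ^ (n - 1) ∧ ∀ i, l.getD (2 ^ (n - 1) - 1) 0 i = perm n) ∧
      (∃ (l : List (Fin n → MvPolynomial (Fin n × Fin n) ℂ)) (P : MvPolynomial ℕ ℂ),
        Prog n k l ∧ 2 * l.length = n * (n + 1) ∧
          ∀ i, gdet n ^ 2 = aeval (fun t => l.getD t 0 i) P)) := by
  refine ⟨fun δ hδ => ?_, fun n hn => ⟨upper n k hn hk, det_sq n k hn hk⟩⟩
  obtain ⟨n₀, h⟩ := lower k hk δ hδ
  refine ⟨n₀, fun n hn l P i hl hP => ?_⟩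
  have h1 := h n hn l hl P i hP
  push_cast at h1
  have e : (k : ℝ) + 1 + 1 = k + 2 := by ring
  rw [e] at h1
  exact h1

end Pool.Agent.Results.MP_35c45d_lc.MessagePassing
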