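import Mathlib
import Pool.Agent.W940.M11

set_option autoImplicit false

open MvPolynomial

namespace Pool.Agent.Results.MP_35c45d_lc.SingularWherePermanentVanishes

universe u

/-- **A cubic lower bound for all multiples of the permanent.**  Let `K` be a field of
characteristic zero, `δ ≥ 1` and `m ≥ 55000 δ`.  Let `A` be an `N × N` matrix of polynomials of
degree at most `δ` in the entries of the generic `m × m` matrix (for `δ = 1`: of affine linear
forms) whose determinant is not identically zero and which is singular at every `m × m` matrix
over `K` with permanent zero (for example: the determinant is a nonzero multiple, of any degree,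
of the permanent).  Then `m ^ 3 ≤ 2200000 δ N`. -/
theorem result (K : Type u) [Field K] [CharZero K] (m N δ : ℕ) (hδ : 1 ≤ δ)
    (hm : 55000 * δ ≤ m) (A : Matrix (Fin N) (Fin N) (MvPolynomial (Fin m × Fin m) K))
    (hA : ∀ i j, (A i j).totalDegree ≤ δ) (hdet : A.det ≠ 0)
    (hvan : ∀ M : Matrix (Fin m) (Fin m) K, M.permanent = 0 →
      (A.map (eval fun v => M v.1 v.2)).det = 0) :
    m ^ 3 ≤ 2200000 * (δ * N) := by
  apply Pool.Agent.W940.M.vanish_bound K m N δ hδ hm A hA hdet
  intro x hx
  have h1 : (Matrix.of fun i j : Fin m => x (i, j)).permanent = 0 := by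
    rw [← hx]
    unfold Pool.Agent.H546R2.SL.perN Matrix.permanent
    rw [map_sum]
    simp only [map_prod, Matrix.of_apply, eval_X]
  have h2 := hvan _ h1
  rw [← h2, RingHom.map_det, RingHom.mapMatrix_apply]
  rfl

end Pool.Agent.Results.MP_35c45d_lc.SingularWherePermanentVanishes
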