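import Mathlib
import Pool.Agent.W463.CT.WS
import Pool.Agent.W463.CT.Equal
import Pool.Agent.W463.CT.PermCoef

set_option autoImplicit false

/-!
Size and cancellation for weakly skew circuits which compute the permanent.

The mass of a circuit is the sum of the absolute values of all terms before cancellation. A weakly
skew circuit with `v` nodes labelled by variables which computes the `n × n` permanent or
determinant has mass at least `n ! * choose n (n / 2) / v`, and at least
`((1 - 1 / Q) n) ^ n / v ^ (Q * clog Q + 1 - Q)` for every `1 ≤ Q ≤ n`.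
-/

namespace Pool.Agent.Results.MP_35c45d_lc.WeaklySkewCancellation

open MvPolynomial Finset
open Pool.Agent.H567.Nec Pool.Agent.H691R2.MM
open Pool.Agent.W463.CT
open Pool.Agent.W463.CT.WS (varNodes)
open Pool.Agent.W463.CT.PermCoef (gen coeff_permanent coeff_det)

universe u

/-- The general inequality in the form used below. -/
theorem general {K : Type u} [Field K] (w : AbsoluteValue K ℝ) (n : ℕ) (hn : 2 ≤ n)
    (Φ : Circuit K (Fin n × Fin n)) (hΦ : Φ.WeaklySkew) (o : Fin Φ.N)
    (P : Finset (Equiv.Perm (Fin n)))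
    (hP : ∀ σ ∈ P, 1 ≤ w ((Φ.value o).coeff (∑ i, Finsupp.single (i, σ i) 1)))
    (L : List ℕ) (hL : L ≠ []) (hsum : L.sum = n) :
    (P.card : ℝ) ^ L.length ≤
      ((varNodes Φ).card : ℝ) ^ (L.length * Nat.clog 2 L.length + 1 - L.length) *
        (L.map (fun d => ((n - d).factorial : ℝ))).prod * cost w Φ o :=
  WS.ws_bound w hn Φ hΦ o P hP L hL hsum

/-- **Main theorem.** -/
theorem result {K : Type u} [Field K] (w : AbsoluteValue K ℝ) (n : ℕ) (hn : 2 ≤ n)
    (Φ : Circuit K (Fin n × Fin n)) (hΦ : Φ.WeaklySkew) (o : Fin Φ.N) :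
    -- circuits which compute the permanent or the determinant
    ((Φ.value o = (gen K n).permanent ∨ Φ.value o = (gen K n).det) →
      ((n.factorial : ℝ) * (n.choose (n / 2) : ℝ) ≤ (varNodes Φ).card * cost w Φ o) ∧
      ∀ Q : ℕ, 1 ≤ Q → Q ≤ n → ((1 - 1 / (Q : ℝ)) * n) ^ n ≤
        ((varNodes Φ).card : ℝ) ^ (Q * Nat.clog 2 Q + 1 - Q) * cost w Φ o) ∧
    -- circuits for which the coefficients at the monomials of the permutations in `P` are large
    (∀ P : Finset (Equiv.Perm (Fin n)),
      (∀ σ ∈ P, 1 ≤ w ((Φ.value o).coeff (∑ i, Finsupp.single (i, σ i) 1))) →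
      ∀ L : List ℕ, L ≠ [] → L.sum = n → (P.card : ℝ) ^ L.length ≤
        ((varNodes Φ).card : ℝ) ^ (L.length * Nat.clog 2 L.length + 1 - L.length) *
          (L.map (fun d => ((n - d).factorial : ℝ))).prod * cost w Φ o) := by
  refine ⟨fun hval => ?_, fun P hP L hL hsum => general w n hn Φ hΦ o P hP L hL hsum⟩
  have hP : ∀ σ ∈ (Finset.univ : Finset (Equiv.Perm (Fin n))),
      1 ≤ w ((Φ.value o).coeff (∑ i, Finsupp.single (i, σ i) 1)) := by
    intro σ _
    change 1 ≤ w ((Φ.value o).coeff (mono σ))
    rcases hval with h1 | h1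
    · rw [h1, coeff_permanent, map_one]
    · rw [h1]
      rcases coeff_det K n σ with h2 | h2
      · rw [h2, map_one]
      · rw [h2, AbsoluteValue.map_neg, map_one]
  have hgen : ∀ L : List ℕ, L ≠ [] → L.sum = n → (n.factorial : ℝ) ^ L.length ≤
      ((varNodes Φ).card : ℝ) ^ Seg.ex L.length *
        (L.map (fun d => ((n - d).factorial : ℝ))).prod * cost w Φ o := by
    intro L hL hsum
    have h := general w n hn Φ hΦ o Finset.univ hP L hL hsum
    rw [Finset.card_univ, Fintype.card_perm, Fintype.card_fin] at h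
    exact h
  refine ⟨?_, fun Q hQ hQn => ?_⟩
  · have h := hgen [n / 2, n - n / 2] (by simp) (by simp; omega)
    have hlen : [n / 2, n - n / 2].length = 2 := rfl
    rw [hlen, Seg.ex_two, pow_one] at h
    simp only [List.map_cons, List.map_nil, List.prod_cons, List.prod_nil, mul_one] at h
    have e1 : n - (n - n / 2) = n / 2 := by omega
    rw [e1] at h
    have hch : ((n.choose (n / 2) : ℕ) : ℝ) * ((n / 2).factorial : ℝ) *
        ((n - n / 2).factorial : ℝ) = (n.factorial : ℝ) := by
      exact_mod_cast Nat.choose_mul_factorial_mul_factorial (Nat.div_le_self n 2)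
    have hfac : (0 : ℝ) < n.factorial := by exact_mod_cast n.factorial_pos
    have h1 : (0 : ℝ) < (n / 2).factorial := by exact_mod_cast (n / 2).factorial_pos
    have h2 : (0 : ℝ) < (n - n / 2).factorial := by exact_mod_cast (n - n / 2).factorial_pos
    have h3 : ((n / 2).factorial : ℝ) * ((n - n / 2).factorial : ℝ) *
        ((n.factorial : ℝ) * (n.choose (n / 2) : ℝ)) = (n.factorial : ℝ) ^ 2 := by
      calc ((n / 2).factorial : ℝ) * ((n - n / 2).factorial : ℝ) *
          ((n.factorial : ℝ) * (n.choose (n / 2) : ℝ))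
          = (((n.choose (n / 2) : ℕ) : ℝ) * ((n / 2).factorial : ℝ) *
            ((n - n / 2).factorial : ℝ)) * (n.factorial : ℝ) := by ring
        _ = _ := by rw [hch]; ring
    have h4 : ((n / 2).factorial : ℝ) * ((n - n / 2).factorial : ℝ) *
        ((n.factorial : ℝ) * (n.choose (n / 2) : ℝ)) ≤
        ((n / 2).factorial : ℝ) * ((n - n / 2).factorial : ℝ) *
          ((varNodes Φ).card * cost w Φ o) := by
      rw [h3]
      refine h.trans (le_of_eq ?_)
      ring
    exact le_of_mul_le_mul_left h4 (by positivity)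
  · exact Equal.equal_blocks hQ hQn hgen

end Pool.Agent.Results.MP_35c45d_lc.WeaklySkewCancellation
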