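import Mathlib
import Pool.Agent.W943.Aff7

/-!
# Programs which read affine forms, and the permanent

A program is a product `start · M_0(ℓ_{j(0)}(x)) ⋯ M_{L-1}(ℓ_{j(L-1)}(x)) · final` of `w × w` matrices
of arbitrary functions of one value each, where `ℓ_0, …, ℓ_{m-1}` are arbitrary affine forms in
the `n^2` entries of the matrix `x` (a hidden coordinate system). We prove lower bounds for the
length and for the width of such programs, and of sums of such programs with independent systems of
affine forms, if they compute the permanent (or the determinant), exactly or approximately.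
-/

set_option autoImplicit false

namespace Pool.Agent.Results.MP_35c45d_lc.ZAffineOblivious

open Pool.Agent.W943.Aff

universe u

/-- The exact computation of `F` implies the approximate computation with respect to the trivial
valuation. -/
theorem approx_top {K : Type u} [Field K] {n : ℕ} (χ : Equiv.Perm (Fin n) → ℤ)
    (g : Matrix (Fin n) (Fin n) K → K) (hg : ∀ x, g x = gm χ x) :
    Approx (⊤ : ValuationSubring K) (gm χ) g := by
  intro x
  refine ⟨gm χ x, ?_, ?_⟩
  · rw [hg, gm_map]
  · rw [gm_map]

theorem infinite_top (K : Type u) [Field K] [Infinite K] :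
    Infinite (IsLocalRing.ResidueField (⊤ : ValuationSubring K)) := by
  let φ : K →+* (⊤ : ValuationSubring K) :=
    { toFun := fun x => ⟨x, ValuationSubring.mem_top x⟩
      map_one' := rfl
      map_mul' := fun _ _ => rfl
      map_zero' := rfl
      map_add' := fun _ _ => rfl }
  exact Infinite.of_injective _ ((IsLocalRing.residue (⊤ : ValuationSubring K)).comp φ).injective

theorem lowerBounds_mono {K : Type u} [Field K] {n : ℕ}
    {C C' : (Matrix (Fin n) (Fin n) K → K) → Prop} (h : ∀ g, C' g → C g)
    (hC : LowerBounds K n C) : LowerBounds K n C' :=
  ⟨fun s m B hB => hC.1 s m B (h _ hB), fun m B hB => hC.2 m B (h _ hB)⟩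

/-- Lower bounds for the permanent and the determinant of `n × n` matrices (`n ≥ 2`) in programs
whose layers read arbitrary affine forms: exactly over infinite fields, and approximately, up to the
maximal ideal of a valuation ring with infinite residue field. -/
theorem result :
    (∀ (K : Type u) [Field K] [Infinite K] (n : ℕ), 2 ≤ n →
      LowerBounds K n (fun g => ∀ x, g x = x.permanent) ∧
      LowerBounds K n (fun g => ∀ x, g x = x.det)) ∧
    (∀ (K : Type u) [Field K] (A : ValuationSubring K) [Infinite (IsLocalRing.ResidueField A)]
      (n : ℕ), 2 ≤ n →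
      LowerBounds K n (Approx A (fun x => x.permanent)) ∧
      LowerBounds K n (Approx A (fun x => x.det))) := by
  have key : ∀ (K : Type u) [Field K] (A : ValuationSubring K)
      [Infinite (IsLocalRing.ResidueField A)] (n : ℕ), 2 ≤ n →
      LowerBounds K n (Approx A (fun x => x.permanent)) ∧
      LowerBounds K n (Approx A (fun x => x.det)) := by
    intro K _ A _ n hn
    constructor
    · have h := lowerBounds_approx A hn (fun _ => 1) blockGood_one
        (by rw [gm_one, Matrix.permanent_one]; exact one_ne_zero)
      have h1 : (gm (fun _ => 1) : Matrix (Fin n) (Fin n) (IsLocalRing.ResidueField A) → _) =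
          fun x => x.permanent := funext fun x => gm_one x
      rw [h1] at h
      exact h
    · have h := lowerBounds_approx A hn (fun s => (Equiv.Perm.sign s : ℤ)) blockGood_sign
        (by rw [gm_sign, Matrix.det_one]; exact one_ne_zero)
      have h1 : (gm (fun s => (Equiv.Perm.sign s : ℤ)) :
          Matrix (Fin n) (Fin n) (IsLocalRing.ResidueField A) → _) =
          fun x => x.det := funext fun x => gm_sign x
      rw [h1] at h
      exact h
  refine ⟨?_, fun K _ A _ n hn => key K A n hn⟩
  intro K _ _ n hn
  haveI := infinite_top K
  obtain ⟨h1, h2⟩ := key K ⊤ n hn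
  refine ⟨lowerBounds_mono ?_ h1, lowerBounds_mono ?_ h2⟩
  · intro g hg
    have h3 := approx_top (fun _ => 1) g (fun x => by rw [hg, gm_one])
    have h4 : (gm (fun _ => 1) : Matrix (Fin n) (Fin n)
        (IsLocalRing.ResidueField (⊤ : ValuationSubring K)) → _) =
        fun x => x.permanent := funext fun x => gm_one x
    rw [h4] at h3
    exact h3
  · intro g hg
    have h3 := approx_top (fun s => (Equiv.Perm.sign s : ℤ)) g (fun x => by rw [hg, gm_sign])
    have h4 : (gm (fun s => (Equiv.Perm.sign s : ℤ)) : Matrix (Fin n) (Fin n)
        (IsLocalRing.ResidueField (⊤ : ValuationSubring K)) → _) =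
        fun x => x.det := funext fun x => gm_sign x
    rw [h4] at h3
    exact h3

end Pool.Agent.Results.MP_35c45d_lc.ZAffineOblivious
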